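import Mathlib
import Pool.Agent.Lib_helper70.PS.Step
import Pool.Agent.Lib_helper70.PS.Tree
import Pool.Agent.Lib_helper22.PS.Final

set_option autoImplicit false

/-!
MP_8191b7_co, Q1 (positive answer): every planar graph `G` is contained in `H ⊠ P` with
`tw H ≤ 239`, `P` a path with `tw G + 2` vertices and `tw (H ⊠ P) ≤ 480 (tw G + 1)`.
-/

namespace Pool.Agent.Results.MP_8191b7_co.TreewidthPreserving

universe u v w

/-- `B` is a tree decomposition of `G` over the tree `T`: every vertex lies in a bag, the two ends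
of every edge lie in a common bag, and the bags holding a given vertex form a connected subtree. -/
structure IsTreeDecomposition {V : Type u} {ι : Type v} (G : SimpleGraph V) (T : SimpleGraph ι)
    (B : ι → Set V) : Prop where
  tree : T.IsTree
  vertex : ∀ x : V, ∃ t : ι, x ∈ B t
  edge : ∀ x y : V, G.Adj x y → ∃ t : ι, x ∈ B t ∧ y ∈ B t
  subtree : ∀ x : V, (T.induce {t | x ∈ B t}).Preconnected

/-- `G` has a tree decomposition (over a finite tree) all of whose bags have at most `k + 1`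
elements. -/
def HasWidth {V : Type u} (G : SimpleGraph V) (k : ℕ) : Prop :=
  ∃ (ι : Type) (_ : Finite ι) (T : SimpleGraph ι) (B : ι → Set V),
    IsTreeDecomposition G T B ∧ ∀ t, (B t).Finite ∧ (B t).ncard ≤ k + 1

/-- The treewidth (of a finite graph). -/
noncomputable def treewidth {V : Type u} (G : SimpleGraph V) : ℕ := sInf {k | HasWidth G k}

/-- The strong product of two graphs. -/
def strongProduct {V : Type u} {W : Type v} (H : SimpleGraph V) (P : SimpleGraph W) :
    SimpleGraph (V × W) where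
  Adj p q := (p.1 = q.1 ∧ P.Adj p.2 q.2) ∨ (p.2 = q.2 ∧ H.Adj p.1 q.1) ∨
    (H.Adj p.1 q.1 ∧ P.Adj p.2 q.2)
  symm := ⟨by
    rintro p q (⟨h, h'⟩ | ⟨h, h'⟩ | ⟨h, h'⟩)
    · exact Or.inl ⟨h.symm, h'.symm⟩
    · exact Or.inr (Or.inl ⟨h.symm, h'.symm⟩)
    · exact Or.inr (Or.inr ⟨h.symm, h'.symm⟩)⟩
  loopless := ⟨by
    rintro p (⟨h, h'⟩ | ⟨h, h'⟩ | ⟨h, h'⟩)
    · exact h'.ne rfl
    · exact h'.ne rfl
    · exact h'.ne rfl⟩

/-- `G` is planar: its vertices can be placed at distinct points of the plane and its edges drawn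
as simple arcs joining their ends, such that an arc meets no vertex but its ends, and the arcs of
two different edges meet only in a common end. -/
def IsPlanar {V : Type u} (G : SimpleGraph V) : Prop :=
  ∃ (f : V → EuclideanSpace ℝ (Fin 2)) (arc : Sym2 V → Set (EuclideanSpace ℝ (Fin 2))),
    Function.Injective f ∧
    (∀ x y : V, G.Adj x y → ∃ γ : Path (f x) (f y), Function.Injective γ ∧
      Set.range γ = arc s(x, y)) ∧
    (∀ x y z : V, G.Adj x y → f z ∈ arc s(x, y) → z = x ∨ z = y) ∧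
    (∀ e ∈ G.edgeSet, ∀ e' ∈ G.edgeSet, e ≠ e' → ∀ p ∈ arc e, p ∈ arc e' →
      ∃ z : V, z ∈ e ∧ z ∈ e' ∧ p = f z)

theorem hasTW_of_hasWidth {V : Type} {G : SimpleGraph V} {k : ℕ} (h : HasWidth G k) :
    PS.HasTW G k := by
  classical
  obtain ⟨ι, hι, T, B, hB, hk⟩ := h
  obtain ⟨m, ⟨e⟩⟩ := Finite.exists_equiv_fin ι
  have iso : T.comap e.symm ≃g T := SimpleGraph.Iso.comap e.symm T
  refine ⟨m, T.comap e.symm, fun t => (hk (e.symm t)).1.toFinset, ?_, ?_, ?_, ?_⟩
  · exact (SimpleGraph.Iso.isTree_iff iso).2 hB.tree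
  · intro x y hxy
    obtain ⟨t, h1, h2⟩ := hB.edge x y hxy
    refine ⟨e t, ?_, ?_⟩
    · simpa using h1
    · simpa using h2
  · intro x
    have hset : {t : Fin m | x ∈ (hk (e.symm t)).1.toFinset} = {t : Fin m | x ∈ B (e.symm t)} := by
      ext t; simp
    rw [hset]
    obtain ⟨t0, ht0⟩ := hB.vertex x
    have hpre := hB.subtree x
    have hc : (T.induce {t | x ∈ B t}).Connected := by
      have : Nonempty {t | x ∈ B t} := ⟨⟨t0, ht0⟩⟩
      exact ⟨hpre⟩
    have iso2 : ((T.comap e.symm).induce {t : Fin m | x ∈ B (e.symm t)}) ≃g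
        (T.induce {t | x ∈ B t}) := by
      refine ⟨⟨fun t => ⟨e.symm t.1, t.2⟩, fun t => ⟨e t.1, by
        have h0 : x ∈ B t.1 := t.2
        show x ∈ B (e.symm (e t.1))
        rw [e.symm_apply_apply]
        exact h0⟩, ?_, ?_⟩, ?_⟩
      · intro t; simp
      · intro t; simp
      · intro a b
        simp [SimpleGraph.comap_adj]
    exact (SimpleGraph.Iso.connected_iff iso2).2 hc
  · intro t
    rw [← Set.ncard_eq_toFinset_card _ (hk (e.symm t)).1]
    exact (hk (e.symm t)).2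

theorem hasWidth_of_hasTW {V : Type} {G : SimpleGraph V} {k : ℕ} (h : PS.HasTW G k) :
    HasWidth G k := by
  classical
  obtain ⟨m, T, B, hT, h1, h2, h3⟩ := h
  refine ⟨Fin m, inferInstance, T, fun t => (B t : Set V), ⟨hT, ?_, ?_, ?_⟩, ?_⟩
  · intro x
    obtain ⟨t⟩ := (h2 x).nonempty
    exact ⟨t.1, t.2⟩
  · intro x y hxy
    obtain ⟨t, ha, hb⟩ := h1 x y hxy
    exact ⟨t, ha, hb⟩
  · intro x
    exact (h2 x).preconnected
  · intro t
    refine ⟨(B t).finite_toSet, ?_⟩
    rw [Set.ncard_coe_finset]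
    exact h3 t

theorem hasWidth_iso {V : Type u} {W : Type v} {G : SimpleGraph V} {G' : SimpleGraph W} {k : ℕ}
    (e : G ≃g G') (h : HasWidth G k) : HasWidth G' k := by
  classical
  obtain ⟨ι, hι, T, B, hB, hk⟩ := h
  refine ⟨ι, hι, T, fun t => e '' (B t), ⟨hB.tree, ?_, ?_, ?_⟩, ?_⟩
  · intro x
    obtain ⟨t, ht⟩ := hB.vertex (e.symm x)
    exact ⟨t, ⟨e.symm x, ht, e.apply_symm_apply x⟩⟩
  · intro x y hxy
    obtain ⟨t, h1, h2⟩ := hB.edge (e.symm x) (e.symm y) (e.symm.map_rel_iff.2 hxy)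
    exact ⟨t, ⟨e.symm x, h1, e.apply_symm_apply x⟩, ⟨e.symm y, h2, e.apply_symm_apply y⟩⟩
  · intro x
    have hset : {t | x ∈ e '' (B t)} = {t | e.symm x ∈ B t} := by
      ext t
      constructor
      · rintro ⟨y, hy, hyx⟩
        have : e.symm x = y := by rw [← hyx]; exact e.symm_apply_apply y
        show e.symm x ∈ B t
        rw [this]; exact hy
      · intro hx
        exact ⟨e.symm x, hx, e.apply_symm_apply x⟩
    rw [hset]
    exact hB.subtree _
  · intro t
    refine ⟨(hk t).1.image _, ?_⟩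
    rw [Set.ncard_image_of_injective _ e.injective]
    exact (hk t).2

theorem treewidth_le_of_hasWidth {V : Type u} {G : SimpleGraph V} {k : ℕ} (h : HasWidth G k) :
    treewidth G ≤ k := Nat.sInf_le h

theorem hasWidth_treewidth {V : Type u} [Finite V] (G : SimpleGraph V) :
    HasWidth G (treewidth G) := by
  classical
  obtain ⟨n, ⟨e⟩⟩ := Finite.exists_equiv_fin V
  have iso : G.comap e.symm ≃g G := SimpleGraph.Iso.comap e.symm G
  obtain ⟨k, hk⟩ := PS.hasTW_trivial (G.comap e.symm)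
  have : HasWidth G k := hasWidth_iso iso (hasWidth_of_hasTW hk)
  exact Nat.sInf_mem (s := {k | HasWidth G k}) ⟨k, this⟩

/-- the strong product with a path in the library's form -/
theorem strongProduct_eq {a b : ℕ} (H : SimpleGraph (Fin a)) :
    strongProduct H (SimpleGraph.pathGraph b) = PS.SP H b := by
  ext p q
  simp only [strongProduct, PS.SP, SimpleGraph.fromRel_adj]
  constructor
  · rintro (⟨h, h'⟩ | ⟨h, h'⟩ | ⟨h, h'⟩)
    · refine ⟨fun hpq => h'.ne (by rw [hpq]), Or.inl ⟨Or.inl h, Or.inr h'⟩⟩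
    · refine ⟨fun hpq => h'.ne (by rw [hpq]), Or.inl ⟨Or.inr h', Or.inl h⟩⟩
    · refine ⟨fun hpq => h'.ne (by rw [hpq]), Or.inl ⟨Or.inr h, Or.inr h'⟩⟩
  · rintro ⟨hne, h⟩
    have key : ∀ p q : Fin a × Fin b, p ≠ q →
        (p.1 = q.1 ∨ H.Adj p.1 q.1) ∧ (p.2 = q.2 ∨ (SimpleGraph.pathGraph b).Adj p.2 q.2) →
        (p.1 = q.1 ∧ (SimpleGraph.pathGraph b).Adj p.2 q.2) ∨ (p.2 = q.2 ∧ H.Adj p.1 q.1) ∨
          (H.Adj p.1 q.1 ∧ (SimpleGraph.pathGraph b).Adj p.2 q.2) := by
      rintro p q hne ⟨h1 | h1, h2 | h2⟩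
      · exact absurd (Prod.ext h1 h2) hne
      · exact Or.inl ⟨h1, h2⟩
      · exact Or.inr (Or.inl ⟨h2, h1⟩)
      · exact Or.inr (Or.inr ⟨h1, h2⟩)
    rcases h with h | h
    · exact key p q hne h
    · rcases key q p hne.symm h with ⟨h1, h2⟩ | ⟨h1, h2⟩ | ⟨h1, h2⟩
      · exact Or.inl ⟨h1.symm, h2.symm⟩
      · exact Or.inr (Or.inl ⟨h1.symm, h2.symm⟩)
      · exact Or.inr (Or.inr ⟨h1.symm, h2.symm⟩)

/-- planarity gives a drawing in the complex plane -/
theorem drawable_of_isPlanar {V : Type u} {W : Type} {G : SimpleGraph V} {G' : SimpleGraph W}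
    (e : G' ≃g G) (h : IsPlanar G) : PS.Drawable G' := by
  classical
  obtain ⟨f, arc, hf, hγ, hv, he⟩ := h
  choose γ hinj hrange using hγ
  let φ : EuclideanSpace ℝ (Fin 2) → ℂ := Complex.orthonormalBasisOneI.repr.symm
  have hφc : Continuous φ := Complex.orthonormalBasisOneI.repr.symm.continuous
  have hφi : Function.Injective φ := Complex.orthonormalBasisOneI.repr.symm.injective
  refine ⟨fun x => φ (f (e x)), fun x y hxy => (γ (e x) (e y) (e.map_rel_iff.2 hxy)).map hφc,
    ?_, ?_, ?_, ?_⟩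
  · intro x y hxy
    exact e.injective (hf (hφi hxy))
  · intro x y hxy s t hst
    exact hinj _ _ _ (hφi hst)
  · intro x y hxy s z hs
    have h1 : γ (e x) (e y) (e.map_rel_iff.2 hxy) s = f (e z) := hφi hs
    have h2 : f (e z) ∈ arc s(e x, e y) := by
      rw [← hrange (e x) (e y) (e.map_rel_iff.2 hxy), ← h1]
      exact ⟨s, rfl⟩
    rcases hv _ _ _ (e.map_rel_iff.2 hxy) h2 with h3 | h3
    · exact Or.inl (e.injective h3)
    · exact Or.inr (e.injective h3)
  · intro x y x' y' hxy hxy' s t hst hne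
    have h1 : γ (e x) (e y) (e.map_rel_iff.2 hxy) s = γ (e x') (e y') (e.map_rel_iff.2 hxy') t :=
      hφi hst
    have hne' : s(e x, e y) ≠ s(e x', e y') := by
      intro hc
      apply hne
      have : Sym2.map e s(x, y) = Sym2.map e s(x', y') := by
        simpa using hc
      exact Sym2.map.injective e.injective this
    have hp : γ (e x) (e y) (e.map_rel_iff.2 hxy) s ∈ arc s(e x, e y) := by
      rw [← hrange (e x) (e y) (e.map_rel_iff.2 hxy)]
      exact ⟨s, rfl⟩
    have hp' : γ (e x) (e y) (e.map_rel_iff.2 hxy) s ∈ arc s(e x', e y') := by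
      rw [h1, ← hrange (e x') (e y') (e.map_rel_iff.2 hxy')]
      exact ⟨t, rfl⟩
    obtain ⟨z, hz, hz', hpz⟩ := he _ (by simpa using e.map_rel_iff.2 hxy) _
      (by simpa using e.map_rel_iff.2 hxy') hne' _ hp hp'
    refine ⟨e.symm z, ?_, ?_, ?_⟩
    · rcases Sym2.mem_iff.1 hz with h3 | h3
      · exact Or.inl (by rw [h3]; exact e.symm_apply_apply x)
      · exact Or.inr (by rw [h3]; exact e.symm_apply_apply y)
    · rcases Sym2.mem_iff.1 hz' with h3 | h3
      · exact Or.inl (by rw [h3]; exact e.symm_apply_apply x')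
      · exact Or.inr (by rw [h3]; exact e.symm_apply_apply y')
    · show φ (γ (e x) (e y) (e.map_rel_iff.2 hxy) s) = φ (f (e (e.symm z)))
      rw [hpz, e.apply_symm_apply]

/-- **Q1, positive answer.** Every finite planar graph `G` is contained in `H ⊠ P`, where `H` is a
finite graph of treewidth at most `239`, `P` is the path with `tw(G) + 2` vertices, and
`tw(H ⊠ P) ≤ 480 (tw(G) + 1)`. -/
theorem result {V : Type u} [Finite V] (G : SimpleGraph V) (hG : IsPlanar G) :
    ∃ (a : ℕ) (H : SimpleGraph (Fin a)),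
      treewidth H ≤ 239 ∧
      G.IsContained (strongProduct H (SimpleGraph.pathGraph (treewidth G + 2))) ∧
      treewidth (strongProduct H (SimpleGraph.pathGraph (treewidth G + 2))) ≤
        480 * (treewidth G + 1) := by
  classical
  obtain ⟨n, ⟨e⟩⟩ := Finite.exists_equiv_fin V
  have iso : G.comap e.symm ≃g G := SimpleGraph.Iso.comap e.symm G
  have hd : PS.Drawable (G.comap e.symm) := drawable_of_isPlanar iso hG
  have hw : PS.HasTW (G.comap e.symm) (treewidth G) :=
    hasTW_of_hasWidth (hasWidth_iso iso.symm (hasWidth_treewidth G))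
  have hcert := PS.cert_of_drawable (m := 48)
    (fun hM F hF hG k hk => PS.cert_of_model hM F hF hG k hk) (G.comap e.symm) hd
    (treewidth G) hw
  obtain ⟨a, H, hH, ⟨φ, hφ⟩, hP⟩ := PS.final_of_cert (G.comap e.symm) (treewidth G + 2) 48 4
    (by omega) (by norm_num) hcert
  refine ⟨a, H, treewidth_le_of_hasWidth (hasWidth_of_hasTW hH), ?_, ?_⟩
  · rw [strongProduct_eq]
    exact ⟨⟨φ.comp iso.symm.toHom, hφ.comp iso.symm.injective⟩⟩
  · rw [strongProduct_eq]
    refine (treewidth_le_of_hasWidth (hasWidth_of_hasTW hP)).trans ?_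
    omega

end Pool.Agent.Results.MP_8191b7_co.TreewidthPreserving
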